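import Pool.Agent.H32.EquiPoly

set_option autoImplicit false

namespace Pool.Agent.Results.MP_349919_co.AllLarge

open Pool.Agent.H32.EquiPoly

/-- For `m ≡ 3 (mod 4)`, `Λ(m)` contains a convex equilateral `n`-gon for every `n ≥ 5 m`. -/
theorem result (m : ℕ) (hm : m % 4 = 3) (n : ℕ) (hn : 5 * m ≤ n) :
    ∃ P : ℕ → ℂ, ConvexEquilateral n P ∧ ∀ k, P k ∈ Lat m :=
  main hm n hn

end Pool.Agent.Results.MP_349919_co.AllLarge
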